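import Pool.Agent.MP_c1891a_nt.G43.Mat

namespace Pool.Agent.Results.MP_c1891a_nt.AlmostAllOrbits

open Pool.Agent.MP_c1891a_nt in
/-- Ih's bound in any number of variables outside a very sparse set of Galois orbits. -/
theorem result (d : ℕ) (P : AddMonoidAlgebra ℂ (Fin d → ℤ))
    (ha : ∀ μ, IsAlgebraic ℚ (P.coeff μ)) (f : (Fin d → ℂ) → ℂ)
    (hf : ∀ x, f x = ∑ μ ∈ P.coeff.support, P.coeff μ * ∏ i, x i ^ μ i)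
    (hP : ∀ B : ℕ, ∃ x : Fin d → ℂ, (∀ i, x i ≠ 0) ∧ f x = 0 ∧
      ¬ ∃ a : Fin d → ℤ, a ≠ 0 ∧ (∀ i, |a i| ≤ B) ∧ ∏ i, x i ^ a i = 1) :
    ∃ (r B : ℕ) (A : Matrix (Fin r) (Fin d) ℤ) (A' : Matrix (Fin d) (Fin r) ℤ)
      (S : Set (Fin r → ℂ)), A * A' = 1 ∧ min 2 d ≤ r ∧
      (∀ Q : AddMonoidAlgebra ℂ (Fin d → ℤ), Irreducible Q → Q ∣ P → Set.finrank ℤ
        {a | ∃ μ ∈ Q.coeff.support, ∃ ν ∈ Q.coeff.support, a = μ - ν} ≤ r) ∧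
      (∀ ε : ℝ, 0 < ε → ∃ C : ℝ, ∀ (X : ℕ) (Y : Finset (Fin r → ℂ)),
        (∀ y ∈ Y, y ∈ S ∧ orderOf y ≤ X) → (Y.card : ℝ) ≤ C * (X : ℝ) ^ ε) ∧
      ∀ (x : Fin d → ℂ) (y : Fin r → ℂ), (∀ i, ∃ n : ℕ, 0 < n ∧ x i ^ n = 1) →
        (∀ k, y k = ∏ i, x i ^ A k i) →
        f x ≠ 0 ∧ IsIntegral ℤ (f x) ∧ IsIntegral ℤ (f x)⁻¹ →
        (∃ a : Fin d → ℤ, a ≠ 0 ∧ (∀ i, |a i| ≤ B) ∧ ∏ i, x i ^ a i = 1) ∨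
        ∃ j : ℕ, j.Coprime (orderOf y) ∧ y ^ j ∈ S := by
  obtain rfl : f = G43.evX P := funext hf
  exact G43.matSp ha hP

end Pool.Agent.Results.MP_c1891a_nt.AlmostAllOrbits
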