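import Pool.Agent.MP_c1891a_nt.G43.Fin

namespace Pool.Agent.Results.MP_c1891a_nt.IsogenyImage

open Pool.Agent.MP_c1891a_nt in
/-- Ih's bound for the images of a hypersurface under isogenies divisible by a large integer. -/
theorem result (d : ℕ) (f : AddMonoidAlgebra ℂ (Fin d → ℤ) → (Fin d → ℂ) → ℂ)
    (hf : ∀ P x, f P x = ∑ μ ∈ P.coeff.support, P.coeff μ * ∏ i, x i ^ μ i)
    (P : AddMonoidAlgebra ℂ (Fin d → ℤ)) (ha : ∀ μ, IsAlgebraic ℚ (P.coeff μ))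
    (hP : ∀ B : ℕ, ∃ x : Fin d → ℂ, (∀ i, x i ≠ 0) ∧ f P x = 0 ∧
      ¬ ∃ a : Fin d → ℤ, a ≠ 0 ∧ (∀ i, |a i| ≤ B) ∧ ∏ i, x i ^ a i = 1) :
    ∃ k₀ : ℕ, ∀ k : ℕ, k₀ ≤ k → ∀ A : Matrix (Fin d) (Fin d) ℤ, A.det ≠ 0 →
      ∀ R S : AddMonoidAlgebra ℂ (Fin d → ℤ), (∀ μ, IsAlgebraic ℚ (R.coeff μ)) →
      (∀ x : Fin d → ℂ, (∀ i, x i ≠ 0) →
        f R (fun j => ∏ i, x i ^ (k * A j i)) = f P x * f S x) →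
      ∃ B : ℕ, ∀ x : Fin d → ℂ, (∀ i, ∃ n : ℕ, 0 < n ∧ x i ^ n = 1) →
        f R x ≠ 0 ∧ IsIntegral ℤ (f R x) ∧ IsIntegral ℤ (f R x)⁻¹ →
        ∃ a : Fin d → ℤ, a ≠ 0 ∧ (∀ i, |a i| ≤ B) ∧ ∏ i, x i ^ a i = 1 := by
  obtain rfl : f = G43.evX := funext fun P => funext (hf P)
  exact G43.finPush G43.allPushN ha hP

end Pool.Agent.Results.MP_c1891a_nt.IsogenyImage
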